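import Pool.Agent.Helper70_RES.Stmts
import Pool.Agent.Helper54_QE.Meas
import Pool.Agent.Helper36_QE.Trace

/-!
# Module DEN: bad sites are rare
-/

set_option autoImplicit false

open scoped InnerProductSpace ComplexConjugate Topology ENNReal
open MeasureTheory Filter

noncomputable section

namespace Pool.Agent.RES.H11

open Pool.Agent.Anderson Pool.Agent.Helper54.Bal Pool.Agent.QE Pool.Agent.RES

variable {d : ℕ}

theorem en_pos (n : ℕ) : 0 < en n := by
  unfold en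
  positivity

theorem zz_im_ne (n : ℕ) (E : ℝ) : (zz (en n) E).im ≠ 0 := by
  have h : (zz (en n) E).im = en n := by simp [zz]
  rw [h]
  exact (en_pos n).ne'

theorem shift_del (x : Site d) : shift x (del x) = del 0 := by
  ext y
  rw [shift_apply, del_apply, del_apply]
  by_cases h : y = 0
  · subst h
    simp
  · rw [if_neg h, if_neg]
    intro h1
    apply h
    simpa using h1

theorem GG_tau (V : Cfg d) (E : ℝ) (n : ℕ) (x : Site d) :
    GG (tau x V) E n 0 = shift x (GG V E n x) := by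
  unfold GG
  rw [← shift_del x, Tr.G_cov (zz_im_ne n E)]

/-- the action of translations -/
def Ta (a : Site d) (p : Cfg d × ℝ) : Cfg d × ℝ := (tau a p.1, p.2)

theorem bdd_Ta (x : Site d) (p : Cfg d × ℝ) :
    Bdd (Ta x p).1 (Ta x p).2 0 ↔ Bdd p.1 p.2 x := by
  unfold Bdd Ta
  simp only [GG_tau, LinearIsometry.norm_map]

theorem good_Ta (K : ℕ) (x : Site d) (p : Cfg d × ℝ) :
    Good K (Ta x p).1 (Ta x p).2 0 ↔ Good K p.1 p.2 x := by
  unfold Good Ta
  simp only [GG_tau, LinearIsometry.norm_map, shift_apply, zero_add, tau]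

theorem good_mono {K K' : ℕ} (hK : K ≤ K') {V : Cfg d} {E : ℝ} {x : Site d}
    (h : Good K V E x) : Good K' V E x := by
  have h1 : (K : ℝ) ≤ K' := by exact_mod_cast hK
  refine ⟨h.1.trans h1, fun n => (h.2.1 n).trans h1, fun n hn => ?_⟩
  exact (h.2.2 n (hK.trans hn)).trans (mul_le_mul_of_nonneg_right h1 (norm_nonneg _))

theorem den (hmax : MaxStmt) (hnul : NulStmt) (hsol : SolStmt) (hgud : GudStmt)
    (hmea : MeaStmt) : DenStmt := by
  intro d μ _ hat
  set S : ℕ → Set (Cfg d × ℝ) := fun K => {p | Bdd p.1 p.2 0 ∧ ¬ Good K p.1 p.2 0} with hS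
  have hSm : ∀ K, MeasurableSet (S K) := fun K =>
    ((hmea d).2.2.2.2.1 0).inter ((hmea d).2.2.2.2.2.1 K 0).compl
  have hSanti : Antitone S := by
    intro K K' hK p hp
    exact ⟨hp.1, fun h => hp.2 (good_mono hK h)⟩
  have hmp : ∀ a : Site d, MeasurePreserving (Ta a) (KK d μ) (KK d μ) := fun a =>
    (Tr.mp_tau μ a).prod (MeasurePreserving.id lam)
  have hact : ∀ (a b : Site d) (p : Cfg d × ℝ), Ta a (Ta b p) = Ta (a + b) p := by
    intro a b p
    unfold Ta tau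
    simp only [add_assoc]
  have hset : ∀ (K : ℕ) (p : Cfg d × ℝ),
      {x : Site d | Ta x p ∈ S K} = {x | Bdd p.1 p.2 x ∧ ¬ Good K p.1 p.2 x} := by
    intro K p
    ext x
    simp only [hS, Set.mem_setOf_eq, bdd_Ta, good_Ta]
  -- the sets `S K` shrink to a null set
  have hS0 : Tendsto (fun K => (KK d μ) (S K)) atTop (𝓝 0) := by
    have h1 : (KK d μ) (⋂ K, S K) = 0 := by
      rw [measure_eq_zero_iff_ae_notMem]
      filter_upwards [hnul d μ hat] with p hp hmem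
      rw [Set.mem_iInter] at hmem
      obtain ⟨φ, hφ⟩ := hsol d p.1 p.2 0 (hmem 0).1
      obtain ⟨K, hK⟩ := hgud d p.1 p.2 0 φ hp.1 hφ (hp.2 0 φ hφ).1
      exact (hmem K).2 (hK K le_rfl)
    have h2 := tendsto_measure_iInter_atTop (μ := KK d μ) (s := S)
      (fun K => (hSm K).nullMeasurableSet) hSanti ⟨0, measure_ne_top _ _⟩
    rwa [h1] at h2
  rw [ae_all_iff]
  intro j
  set ε : ℝ := 1 / ((j : ℝ) + 1) with hε
  have hεpos : 0 < ε := by positivity
  set M : ℕ → Set (Cfg d × ℝ) := fun K => {p | ∃ R : ℕ, ε * (2 * (R : ℝ) + 1) ^ d ≤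
    (({x | Ta x p ∈ S K} ∩ (bx d R : Set (Site d))).ncard : ℝ)} with hM
  have hMle : ∀ K, (KK d μ) (M K) ≤ ENNReal.ofReal (10 ^ d / ε) * (KK d μ) (S K) := fun K =>
    hmax d (Cfg d × ℝ) (KK d μ) Ta hmp hact (S K) (hSm K) ε hεpos
  have hM0 : (KK d μ) (⋂ K, M K) = 0 := by
    have h1 : Tendsto (fun K => ENNReal.ofReal (10 ^ d / ε) * (KK d μ) (S K)) atTop (𝓝 0) := by
      have := ENNReal.Tendsto.const_mul (a := ENNReal.ofReal (10 ^ d / ε)) hS0
        (Or.inr ENNReal.ofReal_ne_top)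
      rwa [mul_zero] at this
    have h2 : ∀ K, (KK d μ) (⋂ K, M K) ≤ ENNReal.ofReal (10 ^ d / ε) * (KK d μ) (S K) :=
      fun K => (measure_mono (Set.iInter_subset _ K)).trans (hMle K)
    exact le_antisymm (ge_of_tendsto' h1 h2) zero_le
  filter_upwards [measure_eq_zero_iff_ae_notMem.1 hM0] with p hp
  rw [Set.mem_iInter, not_forall] at hp
  obtain ⟨K, hK⟩ := hp
  refine ⟨K, fun K' hK' R => ?_⟩
  have h1 : ¬ (ε * (2 * (R : ℝ) + 1) ^ d ≤
      (({x | Ta x p ∈ S K} ∩ (bx d R : Set (Site d))).ncard : ℝ)) := fun h => hK ⟨R, h⟩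
  rw [not_le, hset] at h1
  have h2 : ({x | Bdd p.1 p.2 x ∧ ¬ Good K' p.1 p.2 x} ∩ (bx d R : Set (Site d))).ncard ≤
      ({x | Bdd p.1 p.2 x ∧ ¬ Good K p.1 p.2 x} ∩ (bx d R : Set (Site d))).ncard := by
    apply Set.ncard_le_ncard
    · rintro x ⟨⟨hx1, hx2⟩, hx3⟩
      exact ⟨⟨hx1, fun h => hx2 (good_mono hK' h)⟩, hx3⟩
    · exact (bx d R).finite_toSet.inter_of_right _
  have h3 : (({x | Bdd p.1 p.2 x ∧ ¬ Good K' p.1 p.2 x} ∩ (bx d R : Set (Site d))).ncard : ℝ) ≤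
      (({x | Bdd p.1 p.2 x ∧ ¬ Good K p.1 p.2 x} ∩ (bx d R : Set (Site d))).ncard : ℝ) := by
    exact_mod_cast h2
  have h4 : ε * (2 * (R : ℝ) + 1) ^ d = (2 * (R : ℝ) + 1) ^ d / (j + 1) := by
    rw [hε]
    ring
  rw [h4] at h1
  exact h3.trans h1.le

end Pool.Agent.RES.H11
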