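import Pool.Agent.Helper70_RES.Stmts

/-!
# Module FAT: summability over good sites
-/

set_option autoImplicit false

open scoped InnerProductSpace ComplexConjugate Topology ENNReal
open MeasureTheory Filter

noncomputable section

namespace Pool.Agent.RES.H11

open Pool.Agent.Anderson Pool.Agent.Helper54.Bal Pool.Agent.QE Pool.Agent.RES

variable {d : ℕ}

/-- the truncated Green function -/
def Ff (K : ℕ) (a : Site d) (n : ℕ) (x : Site d) (p : Cfg d × ℝ) : ℝ≥0∞ :=
  Set.indicator {p : Cfg d × ℝ | Cond K n a x p} (fun p => ‖GG p.1 p.2 n a x‖ₑ) p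

theorem measurable_Ff (hmea : MeaStmt) (K : ℕ) (a : Site d) (n : ℕ) (x : Site d) :
    Measurable (Ff K a n x) :=
  ((hmea d).2.1 n a x).enorm.indicator ((hmea d).2.2.2.2.2.2.2 K n a x)

theorem tsum_liminf_le {κ : Measure (Cfg d × ℝ)} {F : ℕ → Site d → Cfg d × ℝ → ℝ≥0∞}
    (hF : ∀ n x, Measurable (F n x)) {C : ℝ≥0∞} (hC : ∀ n, ∑' x, ∫⁻ p, F n x p ∂κ ≤ C) :
    ∫⁻ p, ∑' x, liminf (fun n => F n x p) atTop ∂κ ≤ C := by
  have h1 : ∀ x, Measurable fun p => liminf (fun n => F n x p) atTop :=
    fun x => Measurable.liminf fun n => hF n x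
  rw [lintegral_tsum fun x => (h1 x).aemeasurable]
  calc ∑' x, ∫⁻ p, liminf (fun n => F n x p) atTop ∂κ
      ≤ ∑' x, liminf (fun n => ∫⁻ p, F n x p ∂κ) atTop :=
        ENNReal.tsum_le_tsum fun x => lintegral_liminf_le fun n => hF n x
    _ = ∫⁻ x, liminf (fun n => ∫⁻ p, F n x p ∂κ) atTop ∂Measure.count := by
        rw [lintegral_count]
    _ ≤ liminf (fun n => ∫⁻ x, (∫⁻ p, F n x p ∂κ) ∂(Measure.count : Measure (Site d))) atTop :=
        lintegral_liminf_le fun n => measurable_of_countable _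
    _ ≤ C := by
        apply liminf_le_of_le
        · exact isBounded_ge_of_bot
        · intro b hb
          obtain ⟨n, hn⟩ := hb.exists
          refine hn.trans ?_
          rw [lintegral_count]
          exact hC n

theorem en_tendsto : Tendsto en atTop (𝓝 0) := by
  unfold en
  exact tendsto_one_div_add_atTop_nhds_zero_nat

theorem good_pos {K : ℕ} {V : Cfg d} {E : ℝ} {x : Site d} (h : Good K V E x) : 1 ≤ K := by
  by_contra hK
  have hK0 : K = 0 := by omega
  have h1 := h.2.2 K le_rfl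
  rw [hK0] at h1
  norm_num at h1

theorem fat (hsta : StaStmt) (hlim : LimStmt) (hmea : MeaStmt) : FatStmt := by
  intro d μ _ hlow a
  have hall : ∀ K : ℕ, ∀ᵐ p ∂(KK d μ), 1 ≤ K →
      ∑' x, liminf (fun n => Ff K a n x p) atTop < ∞ := by
    intro K
    by_cases hK : 1 ≤ K
    · obtain ⟨C, hC, hb⟩ := hsta d μ hlow a K hK
      have h1 : ∫⁻ p, ∑' x, liminf (fun n => Ff K a n x p) atTop ∂(KK d μ) ≤ C :=
        tsum_liminf_le (fun n x => measurable_Ff hmea K a n x) hb
      have h2 : Measurable fun p => ∑' x, liminf (fun n => Ff (d := d) K a n x p) atTop :=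
        Measurable.ennreal_tsum fun x => Measurable.liminf fun n => measurable_Ff hmea K a n x
      filter_upwards [ae_lt_top h2 (ne_top_of_le_ne_top hC h1)] with p hp _
      exact hp
    · filter_upwards with p hp
      exact absurd hp hK
  rw [← ae_all_iff] at hall
  filter_upwards [hall] with p hp hno K hgood φ hφ
  have hK : 1 ≤ K := good_pos hgood
  have hfin := hp K hK
  have hle : ∀ x, ENNReal.ofReal (Set.indicator {x | Good K p.1 p.2 x} (fun x => ‖φ x‖) x) ≤
      liminf (fun n => Ff K a n x p) atTop := by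
    intro x
    by_cases hx : Good K p.1 p.2 x
    · rw [Set.indicator_of_mem (show x ∈ {x | Good K p.1 p.2 x} from hx)]
      have hl := hlim d p.1 p.2 a φ hno hφ x
      by_cases h0 : φ x = 0
      · rw [h0, norm_zero, ENNReal.ofReal_zero]
        exact zero_le
      · have hpos : 0 < ‖φ x‖ := norm_pos_iff.2 h0
        have ht1 : Tendsto (fun n => ‖GG p.1 p.2 n a x‖) atTop (𝓝 ‖φ x‖) := hl.norm
        have ht2 : Tendsto (fun n => 8 * (K : ℝ) ^ 4 * en n) atTop (𝓝 0) := by
          have := en_tendsto.const_mul (8 * (K : ℝ) ^ 4)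
          rwa [mul_zero] at this
        have hev : ∀ᶠ n in atTop, Cond K n a x p := by
          have h3 := (ht2.eventually_lt ht1 hpos)
          filter_upwards [h3, eventually_ge_atTop K] with n hn hKn
          exact ⟨hgood.2.1 n, hx.2.1 n, hx.1, hx.2.2 n hKn, hn.le⟩
        have ht3 : Tendsto (fun n => Ff K a n x p) atTop (𝓝 ‖φ x‖ₑ) := by
          have h4 : Tendsto (fun n => ‖GG p.1 p.2 n a x‖ₑ) atTop (𝓝 ‖φ x‖ₑ) := hl.enorm
          refine h4.congr' ?_
          filter_upwards [hev] with n hn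
          unfold Ff
          rw [Set.indicator_of_mem (show p ∈ {p : Cfg d × ℝ | Cond K n a x p} from hn)]
        rw [ht3.liminf_eq, ofReal_norm]
    · rw [Set.indicator_of_notMem (show x ∉ {x | Good K p.1 p.2 x} from hx),
        ENNReal.ofReal_zero]
      exact zero_le
  have hsum : ∑' x, ENNReal.ofReal (Set.indicator {x | Good K p.1 p.2 x} (fun x => ‖φ x‖) x) ≠ ∞ :=
    ne_top_of_le_ne_top hfin.ne (ENNReal.tsum_le_tsum hle)
  have h5 := ENNReal.summable_toReal hsum
  refine h5.congr fun x => ?_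
  rw [ENNReal.toReal_ofReal]
  exact Set.indicator_nonneg (fun _ _ => norm_nonneg _) _

end Pool.Agent.RES.H11
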