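import Pool.Agent.Helper70_RES.Stmts

/-!
# Module SYM: symmetry of `Δ + V`
-/

set_option autoImplicit false

open scoped InnerProductSpace ComplexConjugate Topology ENNReal
open MeasureTheory Filter

noncomputable section

namespace Pool.Agent.RES.H11

open Pool.Agent.Anderson Pool.Agent.Helper54.Bal Pool.Agent.QE Pool.Agent.RES

variable {d : ℕ}

theorem inner_star (f g : L2 d) : ⟪star f, g⟫_ℂ = ∑' x, f x * g x := by
  rw [lp.inner_eq_tsum]
  apply tsum_congr
  intro x
  rw [star_apply, RCLike.inner_apply, Complex.conj_conj, mul_comm]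

theorem summable_mul (f g : L2 d) : Summable fun x => f x * g x := by
  have h := lp.summable_inner (𝕜 := ℂ) (star f) g
  refine h.congr fun x => ?_
  rw [star_apply, RCLike.inner_apply, Complex.conj_conj, mul_comm]

theorem norm_star' (f : L2 d) : ‖star f‖ = ‖f‖ := by
  have h1 : ‖star f‖ ^ 2 = ‖f‖ ^ 2 := by
    rw [L2.norm_sq, L2.norm_sq]
    apply tsum_congr
    intro x
    rw [star_apply, RCLike.norm_conj]
  exact (pow_left_inj₀ (norm_nonneg _) (norm_nonneg _) (by norm_num)).1 h1

theorem norm_tsum_mul_le (f g : L2 d) : ‖∑' x, f x * g x‖ ≤ ‖f‖ * ‖g‖ := by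
  rw [← inner_star, ← norm_star' f]
  exact norm_inner_le_norm _ _

theorem Lap_star (f : L2 d) : Lap d (star f) = star (Lap d f) := by
  ext x
  rw [Lap_apply, star_apply, Lap_apply, ← lap_conj]
  rfl

/-- `∑ (Δ f) g = ∑ f (Δ g)` -/
theorem tsum_lap_symm (f g : L2 d) : ∑' x, lap f x * g x = ∑' x, f x * lap g x := by
  have h1 := inner_Lap (star f) g
  rw [Lap_star, inner_star, inner_star] at h1
  calc ∑' x, lap f x * g x = ∑' x, (Lap d f) x * g x := by
        apply tsum_congr
        intro x
        rw [Lap_apply]
    _ = ∑' x, f x * (Lap d g) x := h1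
    _ = _ := by
        apply tsum_congr
        intro x
        rw [Lap_apply]

theorem summable_lap_mul (f g : L2 d) : Summable fun x => lap f x * g x := by
  refine (summable_mul (Lap d f) g).congr fun x => ?_
  rw [Lap_apply]

theorem summable_mul_lap (f g : L2 d) : Summable fun x => f x * lap g x := by
  refine (summable_mul f (Lap d g)).congr fun x => ?_
  rw [Lap_apply]

theorem sym : SymStmt := by
  intro d V y v E E' φ φ' a b c c' h h'
  refine ⟨summable_mul φ φ', norm_tsum_mul_le φ φ', ?_⟩
  -- the identity at every site
  have h1 : ∀ x, (lap φ x * φ' x - φ x * lap φ' x) +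
      ((if x = y then ((V y : ℂ) - v) * φ y * φ' y else 0) + ((E' : ℂ) - E) * (φ x * φ' x)) =
      (if x = a then c * φ' a else 0) - (if x = b then c' * φ b else 0) := by
    intro x
    have h2 := h x
    have h3 := h' x
    have h4 : ((Function.update V y v) x : ℂ) = (V x : ℂ) - if x = y then ((V y : ℂ) - v) else 0 := by
      by_cases hxy : x = y
      · subst hxy
        simp
      · simp [hxy]
    rw [h4] at h3
    have h5 : (if x = a then c * φ' a else 0) = (if x = a then c else 0) * φ' x := by
      by_cases hxa : x = a
      · subst hxa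
        simp
      · simp [hxa]
    have h6 : (if x = b then c' * φ b else 0) = (if x = b then c' else 0) * φ x := by
      by_cases hxb : x = b
      · subst hxb
        simp
      · simp [hxb]
    have h7 : (if x = y then ((V y : ℂ) - v) * φ y * φ' y else 0) =
        (if x = y then ((V y : ℂ) - v) else 0) * φ x * φ' x := by
      by_cases hxy : x = y
      · subst hxy
        simp
      · simp [hxy]
    rw [h5, h6, h7, ← h2, ← h3]
    ring
  have s1 : Summable fun x => lap φ x * φ' x - φ x * lap φ' x :=
    (summable_lap_mul φ φ').sub (summable_mul_lap φ φ')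
  have s2 : Summable fun x : Site d => (if x = y then ((V y : ℂ) - v) * φ y * φ' y else 0) :=
    summable_of_ne_finset_zero (s := {y}) (fun x hx => by
      rw [if_neg (by simpa using hx)])
  have s3 : Summable fun x => ((E' : ℂ) - E) * (φ x * φ' x) := (summable_mul φ φ').mul_left _
  have s4 : Summable fun x : Site d => (if x = a then c * φ' a else 0) :=
    summable_of_ne_finset_zero (s := {a}) (fun x hx => by
      rw [if_neg (by simpa using hx)])
  have s5 : Summable fun x : Site d => (if x = b then c' * φ b else 0) :=
    summable_of_ne_finset_zero (s := {b}) (fun x hx => by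
      rw [if_neg (by simpa using hx)])
  have h8 := tsum_congr (L := SummationFilter.unconditional (Site d)) h1
  rw [s1.tsum_add (s2.add s3), s2.tsum_add s3, s4.tsum_sub s5, (summable_lap_mul φ φ').tsum_sub
    (summable_mul_lap φ φ'), tsum_lap_symm, sub_self, zero_add, tsum_ite_eq, tsum_ite_eq,
    tsum_ite_eq, tsum_mul_left] at h8
  exact h8.symm

end Pool.Agent.RES.H11
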